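import Pool.Agent.D0H71.CM.Keep
import Pool.Agent.D0H5.CS.Iter
import Pool.Agent.Results.MP_274814_nt.EveryNumerator

/-!
# The Lang–Rohrlich conjecture: EVERY numerator, for denominators near the values of compositions of arithmetic functions

For integers `0 < a < q` without common divisor let `a_j` be the residue of `j a` modulo `q`, `1 ≤ j ≤ n`. If `q > 2n` is
prime to `n!`, the numbers `Γ(a_j / q)` are, up to the reflection formula, `n` different ones of the generators of the field
`F_q`. We say that `a / q` is good if `π` and the numbers `Γ(a_1 / q), …, Γ(a_n / q)` satisfy no polynomial relation of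
degree at most `d` whose coefficients are integers of the number field `F` with conjugates of absolute value at most `q^A`,
and if the `n` Gamma values satisfy no such relation, not even an approximate one, with coefficients which are combinations
of given complex numbers `ω_0, …, ω_(g-1)`.

Let `f` be an arbitrary composition of functions of the class `LM` (positive multiplicative functions of at most polynomial
growth with `h p ≤ M p` for the large primes `p` and different values at different large primes), for example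
`f(x) = φ(σ(φ(x)))`, let `G` be a real function with steps at least a positive constant and of at most polynomial growth, for
example `G v = c v^b`, `c > 0`, `b ≥ 1`, and `0 ≤ κ < 1`.

Theorem. For all large `N`, for all but `N / (log N) ^ U` of the `x ≤ N`, the fractions `a / q` are good for EVERY numerator `a`
prime to `q` and ALL `q` with `|q - G (f x)| ≤ (f x) ^ κ`.

So for almost all `x`, all the fractions with denominator `φ(σ(φ(x)))` are good at once. The values of such compositions form a
thin set and are taken with very large multiplicities; so this does not follow from the number of the exceptions, at most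
`C X ^ ε` fractions with `q ≤ X` (starting file `EveryNumerator`, which is used). The tool for compositions is
`Pool.Agent.D0H71.CM`.
-/

set_option autoImplicit false

open NumberField

namespace Pool.Agent.Results.MP_274814_nt.CompositionDenominators

open Pool.Agent.N733.TG (LM lm_totient lm_sigma Expanding NearG nearG_count expanding_pow)
open Pool.Agent.D0H71.CM (Comp av_comp cavoid)
open Pool.Agent.D0H5.CS (comp_comp comp_iter)
open EveryNumerator (Good gammas)

/-- **Theorem.** Let `F` be a number field with an embedding `ι` in `ℂ`, let `ω_0, ω_1, …` be complex numbers, `n`, `g`, `d`, `A`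
be given, let `G` have steps `≥ c > 0` and growth at most `v^b`, and `0 ≤ κ < 1`. There is `B` such that for all compositions
`f` of functions with `LM` and all `U`, for all large `N`, for all but `N / (log N) ^ U` of the `x ≤ N`: for EVERY reduced
fraction `a / q` in `(0, 1)` with `|q - G (f x)| ≤ (f x) ^ κ` the numbers `Γ(a_1 / q), …, Γ(a_n / q)`, `a_j ≡ j a` modulo `q`,
are good for the degree `d`, the height `q^A`, the numbers `ω_0, …, ω_(g-1)` and the measure `q^(-B)`. The functions `c v^b` with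
`c > 0`, `b ≥ 1` are examples of `G`; Euler's function and the sum of the divisors satisfy `LM`; the iterates of a function
with `LM` and the compositions of compositions are compositions. -/
theorem result :
    (∀ (F : Type) [Field F] [NumberField F] (ι : F →+* ℂ) (ω : ℕ → ℂ) (n g d : ℕ) (A b κ : ℝ) (G : ℕ → ℝ),
      Expanding G b → 0 ≤ κ → κ < 1 → ∃ B : ℝ, ∀ f : ℕ → ℕ, Comp f → ∀ U : ℕ, ∃ N₀ : ℕ, ∀ N : ℕ, N₀ ≤ N →
        ({x : ℕ | 1 ≤ x ∧ x ≤ N ∧ ¬ ∀ a q : ℕ, 0 < a → a < q → a.Coprime q → |(q : ℝ) - G (f x)| ≤ (f x : ℝ) ^ κ →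
          Good F ι (fun i : Fin g => ω i) d ((q : ℝ) ^ A) ((q : ℝ) ^ (-B)) (gammas n a q)}.ncard : ℝ) ≤
          N / Real.log N ^ U) ∧
    (∀ c b : ℝ, 0 < c → 1 ≤ b → Expanding (fun v => c * (v : ℝ) ^ b) b) ∧
    (LM Nat.totient ∧ LM (fun m => ∑ d ∈ m.divisors, d)) ∧
    (∀ f : ℕ → ℕ, LM f → ∀ t : ℕ, Comp (f^[t])) ∧
    (∀ f g : ℕ → ℕ, Comp f → Comp g → Comp (fun m => f (g m))) := by
  refine ⟨?_, fun c b hc hb => expanding_pow hc hb, ⟨lm_totient, lm_sigma⟩, fun f hf t => comp_iter hf t,
    fun F G hF hG => comp_comp hF hG⟩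
  classical
  intro F _ _ ι ω n g d A b κ G hG hκ hκ1
  have hb := hG.one_le
  obtain ⟨ε, hε⟩ : ∃ ε : ℝ, ε = (1 - κ) / (2 * b) := ⟨_, rfl⟩
  have hε0 : 0 < ε := by
    rw [hε]
    exact div_pos (by linarith) (by linarith)
  have hbε : b * ε = (1 - κ) / 2 := by
    rw [hε]
    field_simp
  obtain ⟨B, C, hBC⟩ := (EveryNumerator.result).1 F ι ω n g d A ε hε0
  refine ⟨B, fun f hf U => ?_⟩
  obtain ⟨S, hS⟩ : ∃ S : Set (ℕ × ℕ), S = {p : ℕ × ℕ | 0 < p.1 ∧ p.1 < p.2 ∧ p.1.Coprime p.2 ∧
      ¬ Good F ι (fun i : Fin g => ω i) d ((p.2 : ℝ) ^ A) ((p.2 : ℝ) ^ (-B)) (gammas n p.1 p.2)} := ⟨_, rfl⟩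
  have hfin : ∀ X : ℝ, {t : ℕ × ℕ | t ∈ S ∧ (t.2 : ℝ) ≤ X}.Finite := by
    intro X
    refine (Finset.finite_toSet (Finset.range (⌊X⌋₊ + 1) ×ˢ Finset.range (⌊X⌋₊ + 1))).subset ?_
    rintro ⟨a, q⟩ ⟨h1, h2⟩
    rw [hS] at h1
    have h3 : q ≤ ⌊X⌋₊ := Nat.le_floor h2
    have h4 : a < q := h1.2.1
    rw [Finset.mem_coe, Finset.mem_product, Finset.mem_range, Finset.mem_range]
    exact ⟨by omega, by omega⟩
  obtain ⟨K, hK⟩ := nearG_count S (fun t : ℕ × ℕ => (t.2 : ℝ)) hG (s := ε) (κ := κ) hε0.le hκ hκ1.le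
    ⟨C, fun X hX => ⟨hfin X, by
      refine le_trans (le_of_eq ?_) (hBC X hX)
      congr 2
      ext p
      rw [hS]
      constructor
      · rintro ⟨⟨h1, h2, h3, h4⟩, h5⟩
        exact ⟨h5, h1, h2, h3, h4⟩
      · rintro ⟨h5, h1, h2, h3, h4⟩
        exact ⟨⟨h1, h2, h3, h4⟩, h5⟩⟩⟩
  obtain ⟨N₀, hN₀⟩ := cavoid (av_comp hf) (θ := b * ε + κ) (by rw [hbε]; linarith) (by rw [hbε]; linarith) K U
  refine ⟨N₀, fun N hN => ?_⟩
  have h3 := hN₀ (NearG S (fun t : ℕ × ℕ => (t.2 : ℝ)) G κ) hK N hN
  refine le_trans (le_of_eq ?_) h3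
  congr 1
  rw [← Set.ncard_coe_finset]
  congr 1
  ext x
  rw [Finset.mem_coe, Finset.mem_filter, Finset.mem_Icc]
  constructor
  · rintro ⟨a1, a2, a3⟩
    push Not at a3
    obtain ⟨a, q, h1, h2, h4, h5, h6⟩ := a3
    refine ⟨⟨a1, a2⟩, (a, q), ?_, h5⟩
    rw [hS]
    exact ⟨h1, h2, h4, h6⟩
  · rintro ⟨⟨a1, a2⟩, ⟨a, q⟩, a3, a4⟩
    rw [hS] at a3
    exact ⟨a1, a2, fun h => a3.2.2.2 (h a q a3.1 a3.2.1 a3.2.2.1 a4)⟩

end Pool.Agent.Results.MP_274814_nt.CompositionDenominators
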