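import Pool.Agent.D0H5.CS.Near
import Pool.Agent.D0H5.CS.Iter
import Pool.Agent.Results.MP_274814_nt.ShortIntervals

/-!
# The Lang–Rohrlich conjecture: for EVERY `q`, numerators near the values of compositions of arithmetic functions

Let `q > 2`. The conjecture says that `π` and the `φ(q) / 2` numbers `Γ(a / q)`, `1 ≤ a < q / 2`, `gcd(a, q) = 1`, are
algebraically independent. We call a tuple `(a_1, …, a_n)` of these residues good (for a number field `F` in `ℂ`, complex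
numbers `ω_1, …, ω_g`, and `d`, `A`, `B`) if `π`, `Γ(a_1 / q), …, Γ(a_n / q)` satisfy no polynomial relation of degree at
most `d` in each variable with coefficients which are integers of `F` with conjugates at most `q ^ A`, and if every polynomial
of degree at most `d` in each variable, with coefficients of the form `∑ ω_i c_i`, `c_i` such integers of `F`, takes at
`Γ(a_1 / q), …, Γ(a_n / q)` a value which is at least `q ^ (-B)` times each of its coefficients.

Let `f_1, …, f_n` be arbitrary compositions of functions of the class `LM` (positive multiplicative functions of at most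
polynomial growth with `f p ≤ M p` for the large primes `p` and different values at different large primes), for example
`φ(σ(φ(m)))`.

Theorem. Let `n ≥ 1`, `θ ≥ 0`, and `m`, `g`, `d`, `A` be given.
(1) If `n θ < 1`, there is `B` such that for all compositions `f_1, …, f_n` and all `U` there is `N₀` such that for EVERY `q`,
all number fields of degree at most `m` with an embedding in `ℂ`, all `ω_i` and all `N ≥ N₀`: for all but `N ^ n / (log N) ^ U` of
the `x ∈ [1, N] ^ n`, ALL tuples `a` of residues with `|a_j - f_j(x_j)| ≤ f_j(x_j) ^ θ` are good. So `N₀` does not depend on `q`.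
(2) If `(n + 1) θ < 1`, the same for the denominators: for all compositions `f_0, …, f_n`, for all but
`N ^ (n + 1) / (log N) ^ U` of the `x ∈ [1, N] ^ (n + 1)`, ALL `q` with `|q - f_0(x_0)| ≤ f_0(x_0) ^ θ` and ALL tuples `a` of
residues modulo `q` with `|a_j - f_j(x_j)| ≤ f_j(x_j) ^ θ` are good.

The starting file `ShortIntervals` bounds, for every large `q`, the number of the bad tuples in products of short intervals. We
deduce that there are at most `C X ^ (n - 1 + δ)` bad tuples with coordinates at most `X`, with `C` independent of `q` and `X`.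
The values of compositions form thin sets and are taken with very large multiplicities, so (1) and (2) do not follow from
these counts. The tool for compositions is `Pool.Agent.D0H71.CM`.
-/

set_option autoImplicit false

open NumberField MvPolynomial

namespace Pool.Agent.Results.MP_274814_nt.CompositionNumerators

open Pool.Agent.N733.TG (LM lm_totient lm_sigma)
open Pool.Agent.D0H71.CM (Comp av_comp)
open Pool.Agent.D0H5.CS (ckeep_near comp_comp comp_iter)
open ShortIntervals (Residues Good)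

/-- the bad tuples of residues modulo `q` -/
def bad {n g : ℕ} (q : ℕ) (F : Type) [Field F] [NumberField F] (ι : F →+* ℂ) (ω : Fin g → ℂ) (d : ℕ) (A B : ℝ) :
    Set (Fin n → ℕ) :=
  {a | (∀ j, a j ∈ Residues q) ∧ ¬ Good q F ι ω d A B a}

/-- the cell of a residue -/
noncomputable def cell (L : ℝ) (a : ℕ) : ℕ := ⌊(a : ℝ) / L⌋₊

lemma card_le {L : ℝ} (hL : 1 ≤ L) (Y : Finset ℕ) (hY : ∀ a ∈ Y, ∀ b ∈ Y, |(a : ℝ) - b| ≤ L) :
    ((Y.card : ℕ) : ℝ) ≤ 2 * L := by
  rcases Y.eq_empty_or_nonempty with h | h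
  · rw [h, Finset.card_empty, Nat.cast_zero]
    linarith
  · have hsub : Y ⊆ Finset.Icc (Y.min' h) (Y.min' h + ⌊L⌋₊) := by
      intro a ha
      have h1 := Y.min'_le a ha
      have h2 := hY a ha _ (Y.min'_mem h)
      rw [Finset.mem_Icc]
      refine ⟨h1, ?_⟩
      have h3 : ((a - Y.min' h : ℕ) : ℝ) ≤ L := by
        rw [Nat.cast_sub h1]
        exact (le_abs_self _).trans h2
      have h4 := Nat.le_floor h3
      omega
    have h1 := Finset.card_le_card hsub
    rw [Nat.card_Icc] at h1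
    have h2 : ((Y.card : ℕ) : ℝ) ≤ ⌊L⌋₊ + 1 := by
      have h3 : Y.card ≤ ⌊L⌋₊ + 1 := by omega
      exact_mod_cast h3
    have h3 := Nat.floor_le (by linarith : 0 ≤ L)
    linarith

/-- **the number of the bad tuples with coordinates at most `X`, uniformly in `q` and `X`** -/
theorem count_up (n m g d : ℕ) (hn : 1 ≤ n) (A δ : ℝ) (hδ : 0 < δ) (hδ1 : δ ≤ 1) :
    ∃ B C : ℝ, 0 ≤ C ∧ ∀ (q : ℕ) (F : Type) [Field F] [NumberField F], Module.finrank ℚ F ≤ m →
      ∀ (ι : F →+* ℂ) (ω : Fin g → ℂ) (X : ℕ), 1 ≤ X →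
        ({a : Fin n → ℕ | a ∈ bad q F ι ω d A B ∧ ∀ j, a j ≤ X}.ncard : ℝ) ≤ C * (X : ℝ) ^ ((n : ℝ) - 1 + δ) := by
  classical
  obtain ⟨B, C, q₁, h⟩ := ShortIntervals.result n m g d A δ hδ
  obtain ⟨q₀, hq₀⟩ : ∃ q₀ : ℕ, q₀ = max ⌈q₁⌉₊ 1 := ⟨_, rfl⟩
  obtain ⟨C', hC'⟩ : ∃ C' : ℝ, C' = 2 ^ n * (C * (n * 2 ^ (n - 1))) := ⟨_, rfl⟩
  have hC'0 : 0 ≤ C' := by rw [hC']; positivity
  have hn1 : (1 : ℝ) ≤ n := by exact_mod_cast hn
  have he : 0 ≤ (n : ℝ) - 1 + δ := by linarith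
  refine ⟨B, C' + (q₀ : ℝ) ^ n, by positivity, fun q F _ _ hF ι ω X hX => ?_⟩
  have hXr : (1 : ℝ) ≤ X := by exact_mod_cast hX
  have hXe : (1 : ℝ) ≤ (X : ℝ) ^ ((n : ℝ) - 1 + δ) := Real.one_le_rpow hXr he
  have hfinX : ∀ X : ℕ, {a : Fin n → ℕ | a ∈ bad q F ι ω d A B ∧ ∀ j, a j ≤ X}.Finite := by
    intro X
    refine (Set.Finite.pi' (t := fun _ : Fin n => Set.Iic X) fun _ => Set.finite_Iic _).subset ?_
    exact fun a ha j => ha.2 j
  by_cases hq : q₀ ≤ q
  · have key : ∀ X : ℕ, 1 ≤ X → X ≤ q →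
        ({a : Fin n → ℕ | a ∈ bad q F ι ω d A B ∧ ∀ j, a j ≤ X}.ncard : ℝ) ≤ C' * (X : ℝ) ^ ((n : ℝ) - 1 + δ) := by
      intro X hX hXq
      have hXr : (1 : ℝ) ≤ X := by exact_mod_cast hX
      have hX0 : (0 : ℝ) < X := by linarith
      have hXqr : (X : ℝ) ≤ q := by exact_mod_cast hXq
      have hqq₁ : q₁ ≤ q := (Nat.le_ceil q₁).trans (by exact_mod_cast (le_max_left _ _).trans (hq₀ ▸ hq))
      obtain ⟨L, hL⟩ : ∃ L : ℝ, L = (X : ℝ) ^ (1 - δ) := ⟨_, rfl⟩
      have hL1 : 1 ≤ L := by rw [hL]; exact Real.one_le_rpow hXr (by linarith)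
      have hL0 : 0 < L := by linarith
      have hLq : L ≤ (q : ℝ) ^ (1 - δ) := by
        rw [hL]
        exact Real.rpow_le_rpow (Nat.cast_nonneg _) hXqr (by linarith)
      obtain ⟨M, hM⟩ : ∃ M : ℕ, M = ⌊(X : ℝ) ^ δ⌋₊ + 1 := ⟨_, rfl⟩
      have hXL : (X : ℝ) / L = (X : ℝ) ^ δ := by
        rw [hL, div_eq_iff (by positivity), ← Real.rpow_add hX0]
        have : δ + (1 - δ) = 1 := by ring
        rw [this, Real.rpow_one]
      have hXδ : 1 ≤ (X : ℝ) ^ δ := Real.one_le_rpow hXr hδ.le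
      have hM2 : (M : ℝ) ≤ 2 * (X : ℝ) ^ δ := by
        rw [hM]
        push_cast
        have := Nat.floor_le (by positivity : 0 ≤ (X : ℝ) ^ δ)
        linarith
      have hcell : ∀ a : ℕ, a ≤ X → cell L a < M := by
        intro a ha
        rw [hM, Nat.lt_succ_iff]
        unfold cell
        apply Nat.floor_le_floor
        rw [← hXL]
        have : (a : ℝ) ≤ X := by exact_mod_cast ha
        exact div_le_div_of_nonneg_right this hL0.le
      let Y : (Fin n → ℕ) → Fin n → Finset ℕ := fun c j => (Residues q).filter fun a => cell L a = c j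
      have hYd : ∀ c j, ∀ a ∈ Y c j, ∀ b ∈ Y c j, |(a : ℝ) - b| ≤ L := by
        intro c j a ha b hb
        rw [Finset.mem_filter] at ha hb
        unfold cell at ha hb
        have ha1 := Nat.floor_le (div_nonneg (Nat.cast_nonneg a) hL0.le : (0 : ℝ) ≤ (a : ℝ) / L)
        have ha2 := Nat.lt_floor_add_one ((a : ℝ) / L)
        have hb1 := Nat.floor_le (div_nonneg (Nat.cast_nonneg b) hL0.le : (0 : ℝ) ≤ (b : ℝ) / L)
        have hb2 := Nat.lt_floor_add_one ((b : ℝ) / L)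
        rw [ha.2, le_div_iff₀ hL0] at ha1
        rw [ha.2, div_lt_iff₀ hL0] at ha2
        rw [hb.2, le_div_iff₀ hL0] at hb1
        rw [hb.2, div_lt_iff₀ hL0] at hb2
        rw [abs_le]
        constructor <;> linarith
      have hsub : {a : Fin n → ℕ | a ∈ bad q F ι ω d A B ∧ ∀ j, a j ≤ X} ⊆
          ⋃ c ∈ Fintype.piFinset fun _ : Fin n => Finset.range M,
            {a : Fin n → ℕ | (∀ j, a j ∈ Y c j) ∧ ¬ Good q F ι ω d A B a} := by
        rintro a ⟨⟨ha1, ha2⟩, ha3⟩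
        rw [Set.mem_iUnion₂]
        refine ⟨fun j => cell L (a j), ?_, fun j => ?_, ha2⟩
        · rw [Fintype.mem_piFinset]
          exact fun j => Finset.mem_range.2 (hcell _ (ha3 j))
        · exact Finset.mem_filter.2 ⟨ha1 j, rfl⟩
      have hfin : (⋃ c ∈ Fintype.piFinset fun _ : Fin n => Finset.range M,
            {a : Fin n → ℕ | (∀ j, a j ∈ Y c j) ∧ ¬ Good q F ι ω d A B a}).Finite := by
        refine Set.Finite.biUnion (Finset.finite_toSet _) fun c _ => ?_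
        refine (Finset.finite_toSet (Fintype.piFinset (Y c))).subset ?_
        rintro a ⟨ha, -⟩
        rw [Finset.mem_coe, Fintype.mem_piFinset]
        exact ha
      have h1 := (Set.ncard_le_ncard hsub hfin).trans (Finset.set_ncard_biUnion_le _ _)
      have h2 : ∀ c ∈ Fintype.piFinset fun _ : Fin n => Finset.range M,
          (({a : Fin n → ℕ | (∀ j, a j ∈ Y c j) ∧ ¬ Good q F ι ω d A B a}.ncard : ℕ) : ℝ) ≤
            C * (n * (2 * L) ^ (n - 1)) := by
        intro c _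
        refine ((h q hqq₁ F hF ι ω (Y c) (fun j => Finset.filter_subset _ _) (fun j a ha b hb =>
          (hYd c j a ha b hb).trans hLq)).1).trans ?_
        refine mul_le_mul_of_nonneg_left ?_ (Nat.cast_nonneg _)
        calc ∑ j, ∏ i ∈ Finset.univ.erase j, (((Y c i).card : ℕ) : ℝ)
            ≤ ∑ j : Fin n, ∏ i ∈ Finset.univ.erase j, (2 * L) := by
              refine Finset.sum_le_sum fun j _ => Finset.prod_le_prod (fun _ _ => Nat.cast_nonneg _) fun i _ => ?_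
              exact card_le hL1 _ (hYd c i)
          _ = n * (2 * L) ^ (n - 1) := by
              simp only [Finset.prod_const, Finset.card_erase_of_mem (Finset.mem_univ _), Finset.card_univ,
                Fintype.card_fin, Finset.sum_const, nsmul_eq_mul]
      have h3 : (({a : Fin n → ℕ | a ∈ bad q F ι ω d A B ∧ ∀ j, a j ≤ X}.ncard : ℕ) : ℝ) ≤
          (M : ℝ) ^ n * (C * (n * (2 * L) ^ (n - 1))) := by
        calc (({a : Fin n → ℕ | a ∈ bad q F ι ω d A B ∧ ∀ j, a j ≤ X}.ncard : ℕ) : ℝ)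
            ≤ ((∑ c ∈ Fintype.piFinset fun _ : Fin n => Finset.range M,
                {a : Fin n → ℕ | (∀ j, a j ∈ Y c j) ∧ ¬ Good q F ι ω d A B a}.ncard : ℕ) : ℝ) := by exact_mod_cast h1
          _ ≤ ∑ c ∈ Fintype.piFinset fun _ : Fin n => Finset.range M, C * (n * (2 * L) ^ (n - 1)) := by
              rw [Nat.cast_sum]
              exact Finset.sum_le_sum h2
          _ = _ := by
              rw [Finset.sum_const, Fintype.card_piFinset_const, Finset.card_range, nsmul_eq_mul]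
              push_cast
              rfl
      refine h3.trans ?_
      have h4 : ((X : ℝ) ^ δ) ^ n * L ^ (n - 1) = (X : ℝ) ^ ((n : ℝ) - 1 + δ) := by
        rw [hL, ← Real.rpow_natCast, ← Real.rpow_natCast, ← Real.rpow_mul hX0.le, ← Real.rpow_mul hX0.le,
          ← Real.rpow_add hX0, Nat.cast_sub hn, Nat.cast_one]
        congr 1
        ring
      have h5 : (M : ℝ) ^ n ≤ (2 * (X : ℝ) ^ δ) ^ n := pow_le_pow_left₀ (Nat.cast_nonneg _) hM2 _
      calc (M : ℝ) ^ n * (C * (n * (2 * L) ^ (n - 1)))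
          ≤ (2 * (X : ℝ) ^ δ) ^ n * (C * (n * (2 * L) ^ (n - 1))) := mul_le_mul_of_nonneg_right h5 (by positivity)
        _ = 2 ^ n * (C * (n * 2 ^ (n - 1))) * (((X : ℝ) ^ δ) ^ n * L ^ (n - 1)) := by
            rw [mul_pow, mul_pow]
            ring
        _ = _ := by rw [h4, hC']
    have hle : C' ≤ C' + (q₀ : ℝ) ^ n := by
      have : (0 : ℝ) ≤ (q₀ : ℝ) ^ n := by positivity
      linarith
    by_cases hXq : X ≤ q
    · exact (key X hX hXq).trans (mul_le_mul_of_nonneg_right hle (by positivity))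
    · push Not at hXq
      have hq1 : 1 ≤ q := le_trans (by rw [hq₀]; exact le_max_right _ _) hq
      have hsub : {a : Fin n → ℕ | a ∈ bad q F ι ω d A B ∧ ∀ j, a j ≤ X} ⊆
          {a : Fin n → ℕ | a ∈ bad q F ι ω d A B ∧ ∀ j, a j ≤ q} := by
        rintro a ⟨ha, -⟩
        refine ⟨ha, fun j => ?_⟩
        have h1 := ha.1 j
        rw [Residues, Finset.mem_filter, Finset.mem_range] at h1
        exact h1.1.le
      have h1 : (({a : Fin n → ℕ | a ∈ bad q F ι ω d A B ∧ ∀ j, a j ≤ X}.ncard : ℕ) : ℝ) ≤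
          (({a : Fin n → ℕ | a ∈ bad q F ι ω d A B ∧ ∀ j, a j ≤ q}.ncard : ℕ) : ℝ) := by
        exact_mod_cast Set.ncard_le_ncard hsub (hfinX q)
      refine (h1.trans (key q hq1 le_rfl)).trans ?_
      have h2 : (q : ℝ) ^ ((n : ℝ) - 1 + δ) ≤ (X : ℝ) ^ ((n : ℝ) - 1 + δ) :=
        Real.rpow_le_rpow (Nat.cast_nonneg _) (by exact_mod_cast hXq.le) he
      exact mul_le_mul hle h2 (by positivity) (by positivity)
  · push Not at hq
    have hsub : {a : Fin n → ℕ | a ∈ bad q F ι ω d A B ∧ ∀ j, a j ≤ X} ⊆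
        ((Fintype.piFinset (fun _ : Fin n => Finset.range q₀) : Finset (Fin n → ℕ)) : Set (Fin n → ℕ)) := by
      rintro a ⟨ha, -⟩
      rw [Finset.mem_coe, Fintype.mem_piFinset]
      intro j
      have h1 := ha.1 j
      rw [Residues, Finset.mem_filter, Finset.mem_range] at h1
      rw [Finset.mem_range]
      exact h1.1.trans hq
    have h1 := Set.ncard_le_ncard hsub (Finset.finite_toSet _)
    rw [Set.ncard_coe_finset, Fintype.card_piFinset_const, Finset.card_range] at h1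
    have h2 : (({a : Fin n → ℕ | a ∈ bad q F ι ω d A B ∧ ∀ j, a j ≤ X}.ncard : ℕ) : ℝ) ≤ (q₀ : ℝ) ^ n := by
      exact_mod_cast h1
    have h3 : (0 : ℝ) ≤ (q₀ : ℝ) ^ n := by positivity
    nlinarith

/-- the bad tuples `(q, a_1, …, a_n)` -/
def badAll {n g : ℕ} (F : Type) [Field F] [NumberField F] (ι : F →+* ℂ) (ω : Fin g → ℂ) (d : ℕ) (A B : ℝ) :
    Set (Fin (n + 1) → ℕ) :=
  {t | (fun j : Fin n => t j.succ) ∈ bad (t 0) F ι ω d A B}

theorem count_all (n m g d : ℕ) (hn : 1 ≤ n) (A δ : ℝ) (hδ : 0 < δ) (hδ1 : δ ≤ 1) :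
    ∃ B C : ℝ, 0 ≤ C ∧ ∀ (F : Type) [Field F] [NumberField F], Module.finrank ℚ F ≤ m →
      ∀ (ι : F →+* ℂ) (ω : Fin g → ℂ) (X : ℕ), 1 ≤ X →
        ({t : Fin (n + 1) → ℕ | t ∈ badAll F ι ω d A B ∧ ∀ j, t j ≤ X}.ncard : ℝ) ≤ C * (X : ℝ) ^ ((n : ℝ) + δ) := by
  classical
  obtain ⟨B, C, hC, h⟩ := count_up n m g d hn A δ hδ hδ1
  refine ⟨B, 2 * C, by positivity, fun F _ _ hF ι ω X hX => ?_⟩
  have hXr : (1 : ℝ) ≤ X := by exact_mod_cast hX
  let S : ℕ → Set (Fin n → ℕ) := fun q => {a : Fin n → ℕ | a ∈ bad q F ι ω d A B ∧ ∀ j, a j ≤ X}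
  have hSfin : ∀ q, (S q).Finite := by
    intro q
    refine (Set.Finite.pi' (t := fun _ : Fin n => Set.Iic X) fun _ => Set.finite_Iic _).subset ?_
    exact fun a ha j => ha.2 j
  have hsub : {t : Fin (n + 1) → ℕ | t ∈ badAll F ι ω d A B ∧ ∀ j, t j ≤ X} ⊆
      ⋃ q ∈ Finset.range (X + 1), (fun a : Fin n → ℕ => (Fin.cons q a : Fin (n + 1) → ℕ)) '' S q := by
    rintro t ⟨ht1, ht2⟩
    rw [Set.mem_iUnion₂]
    exact ⟨t 0, Finset.mem_range.2 (Nat.lt_succ_of_le (ht2 0)), fun j => t j.succ, ⟨ht1, fun j => ht2 _⟩,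
      Fin.cons_self_tail t⟩
  have hfin : (⋃ q ∈ Finset.range (X + 1), (fun a : Fin n → ℕ => (Fin.cons q a : Fin (n + 1) → ℕ)) '' S q).Finite :=
    Set.Finite.biUnion (Finset.finite_toSet _) fun q _ => (hSfin q).image _
  have h1 := (Set.ncard_le_ncard hsub hfin).trans (Finset.set_ncard_biUnion_le _ _)
  have h2 : ∀ q ∈ Finset.range (X + 1),
      ((((fun a : Fin n → ℕ => (Fin.cons q a : Fin (n + 1) → ℕ)) '' S q).ncard : ℕ) : ℝ) ≤
        C * (X : ℝ) ^ ((n : ℝ) - 1 + δ) := by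
    intro q _
    have h3 : (((fun a : Fin n → ℕ => (Fin.cons q a : Fin (n + 1) → ℕ)) '' S q).ncard) ≤ (S q).ncard :=
      Set.ncard_image_le (hSfin q)
    calc ((((fun a : Fin n → ℕ => (Fin.cons q a : Fin (n + 1) → ℕ)) '' S q).ncard : ℕ) : ℝ) ≤ ((S q).ncard : ℕ) := by
          exact_mod_cast h3
      _ ≤ _ := h q F hF ι ω X hX
  calc (({t : Fin (n + 1) → ℕ | t ∈ badAll F ι ω d A B ∧ ∀ j, t j ≤ X}.ncard : ℕ) : ℝ)
      ≤ ((∑ q ∈ Finset.range (X + 1), ((fun a : Fin n → ℕ => (Fin.cons q a : Fin (n + 1) → ℕ)) '' S q).ncard : ℕ) : ℝ) := by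
        exact_mod_cast h1
    _ ≤ ∑ q ∈ Finset.range (X + 1), C * (X : ℝ) ^ ((n : ℝ) - 1 + δ) := by
        rw [Nat.cast_sum]
        exact Finset.sum_le_sum h2
    _ = (X + 1) * (C * (X : ℝ) ^ ((n : ℝ) - 1 + δ)) := by
        rw [Finset.sum_const, Finset.card_range, nsmul_eq_mul]
        push_cast
        rfl
    _ ≤ (2 * X) * (C * (X : ℝ) ^ ((n : ℝ) - 1 + δ)) := mul_le_mul_of_nonneg_right (by linarith) (by positivity)
    _ = 2 * C * (X : ℝ) ^ ((n : ℝ) + δ) := by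
        have h4 : (n : ℝ) + δ = 1 + ((n : ℝ) - 1 + δ) := by ring
        have h5 : (X : ℝ) ^ (1 + ((n : ℝ) - 1 + δ)) = X * (X : ℝ) ^ ((n : ℝ) - 1 + δ) := by
          rw [Real.rpow_add (by linarith), Real.rpow_one]
        rw [h4, h5]
        ring

/-- **Theorem.** Let `n ≥ 1`, `θ ≥ 0`, and `m`, `g`, `d`, `A` be given. (1) If `n θ < 1`, there is `B` such that for all
compositions `f_1, …, f_n` of functions with `LM` and all `U` there is `N₀` such that for EVERY `q`, all number fields of degree at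
most `m` with an embedding in `ℂ`, all `ω_1, …, ω_g` and all `N ≥ N₀`, for all but `N ^ n / (log N) ^ U` of the
`x ∈ [1, N] ^ n`: ALL tuples `a` of integers `1 ≤ a_j < q / 2` prime to `q` with `|a_j - f_j(x_j)| ≤ f_j(x_j) ^ θ` are good.
(2) If `(n + 1) θ < 1`, there is `B` such that for all compositions `f_0, …, f_n` and all `U` there is `N₀` such that for all
number fields of degree at most `m`, all `ω_1, …, ω_g` and all `N ≥ N₀`, for all but `N ^ (n + 1) / (log N) ^ U` of the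
`x ∈ [1, N] ^ (n + 1)`: for ALL `t = (q, a_1, …, a_n)` with `|t_i - f_i(x_i)| ≤ f_i(x_i) ^ θ`, `1 ≤ a_j < q / 2` and `a_j` prime
to `q`, the tuple `a` is good. (3) Euler's function and the sum of the divisors satisfy `LM`; the iterates of a function with
`LM` and the compositions of compositions are compositions. -/
theorem result :
    (∀ (n m g d : ℕ), 1 ≤ n → ∀ A θ : ℝ, 0 ≤ θ → n * θ < 1 → ∃ B : ℝ, ∀ f : Fin n → ℕ → ℕ, (∀ j, Comp (f j)) → ∀ U : ℕ,
      ∃ N₀ : ℕ, ∀ (q : ℕ) (F : Type) [Field F] [NumberField F], Module.finrank ℚ F ≤ m → ∀ (ι : F →+* ℂ) (ω : Fin g → ℂ)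
        (N : ℕ), N₀ ≤ N →
        ({x : Fin n → ℕ | (∀ j, 1 ≤ x j ∧ x j ≤ N) ∧ ¬ ∀ a : Fin n → ℕ, (∀ j, a j ∈ Residues q) →
          (∀ j, |(a j : ℝ) - f j (x j)| ≤ (f j (x j) : ℝ) ^ θ) → Good q F ι ω d A B a}.ncard : ℝ) ≤
          (N : ℝ) ^ n / Real.log N ^ U) ∧
    (∀ (n m g d : ℕ), 1 ≤ n → ∀ A θ : ℝ, 0 ≤ θ → (n + 1) * θ < 1 → ∃ B : ℝ, ∀ f : Fin (n + 1) → ℕ → ℕ,
      (∀ i, Comp (f i)) → ∀ U : ℕ,
      ∃ N₀ : ℕ, ∀ (F : Type) [Field F] [NumberField F], Module.finrank ℚ F ≤ m → ∀ (ι : F →+* ℂ) (ω : Fin g → ℂ)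
        (N : ℕ), N₀ ≤ N →
        ({x : Fin (n + 1) → ℕ | (∀ j, 1 ≤ x j ∧ x j ≤ N) ∧ ¬ ∀ t : Fin (n + 1) → ℕ,
          (∀ j : Fin n, t j.succ ∈ Residues (t 0)) →
          (∀ i, |(t i : ℝ) - f i (x i)| ≤ (f i (x i) : ℝ) ^ θ) → Good (t 0) F ι ω d A B (fun j => t j.succ)}.ncard : ℝ) ≤
          (N : ℝ) ^ (n + 1) / Real.log N ^ U) ∧
    (LM Nat.totient ∧ LM (fun m => ∑ d ∈ m.divisors, d)) ∧
    (∀ f : ℕ → ℕ, LM f → ∀ t : ℕ, Comp (f^[t])) ∧
    (∀ f g : ℕ → ℕ, Comp f → Comp g → Comp (fun m => f (g m))) := by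
  refine ⟨?_, ?_, ⟨lm_totient, lm_sigma⟩, fun f hf t => comp_iter hf t, fun F G hF hG => comp_comp hF hG⟩
  · intro n m g d hn A θ hθ hθn
    have hn1 : (1 : ℝ) ≤ n := by exact_mod_cast hn
    obtain ⟨δ, hδ⟩ : ∃ δ : ℝ, δ = (1 - n * θ) / 2 := ⟨_, rfl⟩
    have hδ0 : 0 < δ := by rw [hδ]; linarith
    have hnθ : 0 ≤ n * θ := by positivity
    have hδ1 : δ ≤ 1 := by rw [hδ]; linarith
    have hθ1 : θ ≤ 1 := by nlinarith
    obtain ⟨B, C, hC, h⟩ := count_up n m g d hn A δ hδ0 hδ1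
    refine ⟨B, fun f hf U => ?_⟩
    obtain ⟨N₀, hN₀⟩ := ckeep_near hn (fun i => av_comp (hf i)) (ρ := (n : ℝ) - 1 + δ) (θ := θ) hθ hθ1
      (by rw [hδ]; linarith) C U
    refine ⟨N₀, fun q F _ _ hF ι ω N hN => ?_⟩
    refine le_trans (le_of_eq ?_) (hN₀ (bad q F ι ω d A B) (fun X hX => h q F hF ι ω X hX) N hN)
    congr 2
    ext x
    constructor
    · rintro ⟨h1, h2⟩
      push Not at h2
      obtain ⟨a, h3, h4, h5⟩ := h2
      exact ⟨h1, a, ⟨h3, h5⟩, h4⟩
    · rintro ⟨h1, a, ⟨h3, h5⟩, h4⟩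
      exact ⟨h1, fun h6 => h5 (h6 a h3 h4)⟩
  · intro n m g d hn A θ hθ hθn
    have hn1 : (1 : ℝ) ≤ n := by exact_mod_cast hn
    obtain ⟨δ, hδ⟩ : ∃ δ : ℝ, δ = (1 - (n + 1) * θ) / 2 := ⟨_, rfl⟩
    have hδ0 : 0 < δ := by rw [hδ]; linarith
    have hnθ : 0 ≤ (n + 1) * θ := by positivity
    have hδ1 : δ ≤ 1 := by rw [hδ]; linarith
    have hθ1 : θ ≤ 1 := by nlinarith
    obtain ⟨B, C, hC, h⟩ := count_all n m g d hn A δ hδ0 hδ1
    refine ⟨B, fun f hf U => ?_⟩
    obtain ⟨N₀, hN₀⟩ := ckeep_near (k := n + 1) (by omega) (fun i => av_comp (hf i)) (ρ := (n : ℝ) + δ) (θ := θ)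
      hθ hθ1 (by push_cast; rw [hδ]; linarith) C U
    refine ⟨N₀, fun F _ _ hF ι ω N hN => ?_⟩
    refine le_trans (le_of_eq ?_) (hN₀ (badAll F ι ω d A B) (fun X hX => h F hF ι ω X hX) N hN)
    congr 2
    ext x
    constructor
    · rintro ⟨h1, h2⟩
      push Not at h2
      obtain ⟨t, h3, h4, h5⟩ := h2
      exact ⟨h1, t, ⟨h3, h5⟩, h4⟩
    · rintro ⟨h1, t, ⟨h3, h5⟩, h4⟩
      exact ⟨h1, fun h6 => h5 (h6 t h3 h4)⟩

end Pool.Agent.Results.MP_274814_nt.CompositionNumerators
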