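import Pool.Agent.D0H63.MR.RatC
import Pool.Agent.N251.LF.Fields
import Pool.Agent.Results.MP_274814_nt.ShortIntervals

/-!
# The Lang–Rohrlich conjecture at ALL good simultaneous rational approximations of almost every real vector

Let `q > 2`. The conjecture says that `π` and the `φ(q) / 2` numbers `Γ(a / q)`, `1 ≤ a < q / 2`, `gcd(a, q) = 1`, are
algebraically independent. We call a tuple `(a_1, …, a_n)` of these residues good (for a number field `F` in `ℂ`, complex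
numbers `ω_0, …, ω_(g-1)`, and `d`, `A`, `B`) if `π`, `Γ(a_1 / q), …, Γ(a_n / q)` satisfy no polynomial relation of degree at
most `d` in each variable with coefficients which are integers of `F` with conjugates at most `q ^ A`, and if every polynomial of
degree at most `d` in each variable, with coefficients of the form `∑ ω_i c_i`, `c_i` such integers of `F`, takes at
`Γ(a_1 / q), …, Γ(a_n / q)` a value which is at least `q ^ (-B)` times each of its coefficients.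

Theorem. Let `n ≥ 1`, `τ > 0` and `ω_0, ω_1, …` complex numbers. All real vectors `ξ` with positive coordinates but a set of
Hausdorff dimension at most `n / τ` (if `τ > 1`: almost all `ξ`) have the following property: for ALL number fields `F` in `ℂ`
and all `g`, `d`, `A` there is `B` such that for all `C`, for ALL large `q`, ALL tuples `(a_1, …, a_n)` of residues as above
with `|ξ_j - a_j / q| ≤ C q ^ (-τ)` are good.

For `τ = 1 + 1 / n` the bound is `n - n / (n + 1)`, and the tuples include all the best simultaneous approximations of `ξ`. The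
tuples with `a_1 = a_2` are not good, and for `n ≥ 2` all vectors with `ξ_1 = ξ_2` which have infinitely many such
approximations with `a_1 = a_2` are exceptional: the bound `n / τ` is natural. The starting file `EveryNumerator` is about the
numerators `j a` modulo `q` of ONE real number, `j = 1, …, n`; the starting file `ShortIntervals` bounds, for every large `q`,
the number of the bad tuples in products of short intervals; it does not give a good tuple near a given vector, at the distance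
`C / q ^ τ`, `τ > 1`, since there is at most one. The proof combines that count, for every large `q`, with the lemma of
Hausdorff and Cantelli in the form of `Pool.Agent.D0H63.MR` (there are at most `C X ^ (n + ε)` bad tuples with `q ≤ X`).
-/

set_option autoImplicit false

open NumberField MvPolynomial Filter MeasureTheory
open scoped ENNReal

namespace Pool.Agent.Results.MP_274814_nt.IndependentNumerators

open ShortIntervals (Residues Good Admissible)

/-- the cell of a residue -/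
noncomputable def cell (L : ℝ) (a : ℕ) : ℕ := ⌊(a : ℝ) / L⌋₊

lemma card_le {L : ℝ} (hL : 1 ≤ L) (Y : Finset ℕ) (hY : ∀ a ∈ Y, ∀ b ∈ Y, |(a : ℝ) - b| ≤ L) :
    ((Y.card : ℕ) : ℝ) ≤ 2 * L := by
  rcases Y.eq_empty_or_nonempty with h | h
  · rw [h, Finset.card_empty, Nat.cast_zero]
    linarith
  · have hsub : Y ⊆ Finset.Icc (Y.min' h) (Y.min' h + ⌊L⌋₊) := by
      intro a ha
      have h1 := Y.min'_le a ha
      have h2 := hY a ha _ (Y.min'_mem h)
      rw [Finset.mem_Icc]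
      refine ⟨h1, ?_⟩
      have h3 : ((a - Y.min' h : ℕ) : ℝ) ≤ L := by
        rw [Nat.cast_sub h1]
        exact (le_abs_self _).trans h2
      have h4 := Nat.le_floor h3
      omega
    have h1 := Finset.card_le_card hsub
    rw [Nat.card_Icc] at h1
    have h2 : ((Y.card : ℕ) : ℝ) ≤ ⌊L⌋₊ + 1 := by
      have h3 : Y.card ≤ ⌊L⌋₊ + 1 := by omega
      exact_mod_cast h3
    have h3 := Nat.floor_le (by linarith : 0 ≤ L)
    linarith

/-- the number of the bad tuples with denominator `q`, for every large `q` -/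
theorem count (n m g d : ℕ) (hn : 1 ≤ n) (A δ : ℝ) (hδ : 0 < δ) (hδ1 : δ ≤ 1) :
    ∃ (B C : ℝ) (q₀ : ℕ), 0 ≤ C ∧ ∀ q : ℕ, q₀ ≤ q → ∀ (F : Type) [Field F] [NumberField F], Module.finrank ℚ F ≤ m →
      ∀ (ι : F →+* ℂ) (ω : Fin g → ℂ),
        ({a : Fin n → ℕ | (∀ j, a j ∈ Residues q) ∧ ¬ Good q F ι ω d A B a}.ncard : ℝ) ≤
          C * (q : ℝ) ^ ((n : ℝ) - 1 + δ) := by
  classical
  obtain ⟨B, C, q₁, h⟩ := ShortIntervals.result n m g d A δ hδ
  refine ⟨B, 2 ^ n * (C * (n * 2 ^ (n - 1))), max ⌈q₁⌉₊ 1, by positivity, fun q hq F _ _ hF ι ω => ?_⟩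
  have hq1 : 1 ≤ q := (le_max_right _ _).trans hq
  have hqr : (1 : ℝ) ≤ q := by exact_mod_cast hq1
  have hq0 : (0 : ℝ) < q := by linarith
  have hqq₁ : q₁ ≤ q := (Nat.le_ceil q₁).trans (by exact_mod_cast (le_max_left _ _).trans hq)
  obtain ⟨L, hL⟩ : ∃ L : ℝ, L = (q : ℝ) ^ (1 - δ) := ⟨_, rfl⟩
  have hL1 : 1 ≤ L := by rw [hL]; exact Real.one_le_rpow hqr (by linarith)
  have hL0 : 0 < L := by linarith
  obtain ⟨M, hM⟩ : ∃ M : ℕ, M = ⌊(q : ℝ) ^ δ⌋₊ + 1 := ⟨_, rfl⟩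
  have hqL : (q : ℝ) / L = (q : ℝ) ^ δ := by
    rw [hL, div_eq_iff (by positivity), ← Real.rpow_add hq0]
    have : δ + (1 - δ) = 1 := by ring
    rw [this, Real.rpow_one]
  have hqδ : 1 ≤ (q : ℝ) ^ δ := Real.one_le_rpow hqr hδ.le
  have hM2 : (M : ℝ) ≤ 2 * (q : ℝ) ^ δ := by
    rw [hM]
    push_cast
    have := Nat.floor_le (by positivity : 0 ≤ (q : ℝ) ^ δ)
    linarith
  have hcell : ∀ a ∈ Residues q, cell L a < M := by
    intro a ha
    rw [Residues, Finset.mem_filter, Finset.mem_range] at ha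
    rw [hM, Nat.lt_succ_iff]
    unfold cell
    apply Nat.floor_le_floor
    rw [← hqL]
    have : (a : ℝ) ≤ q := by exact_mod_cast ha.1.le
    exact div_le_div_of_nonneg_right this hL0.le
  let Y : (Fin n → ℕ) → Fin n → Finset ℕ := fun c j => (Residues q).filter fun a => cell L a = c j
  have hYd : ∀ c j, ∀ a ∈ Y c j, ∀ b ∈ Y c j, |(a : ℝ) - b| ≤ L := by
    intro c j a ha b hb
    rw [Finset.mem_filter] at ha hb
    unfold cell at ha hb
    have ha1 := Nat.floor_le (div_nonneg (Nat.cast_nonneg a) hL0.le : (0 : ℝ) ≤ (a : ℝ) / L)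
    have ha2 := Nat.lt_floor_add_one ((a : ℝ) / L)
    have hb1 := Nat.floor_le (div_nonneg (Nat.cast_nonneg b) hL0.le : (0 : ℝ) ≤ (b : ℝ) / L)
    have hb2 := Nat.lt_floor_add_one ((b : ℝ) / L)
    rw [ha.2, le_div_iff₀ hL0] at ha1
    rw [ha.2, div_lt_iff₀ hL0] at ha2
    rw [hb.2, le_div_iff₀ hL0] at hb1
    rw [hb.2, div_lt_iff₀ hL0] at hb2
    rw [abs_le]
    constructor <;> linarith
  have hsub : {a : Fin n → ℕ | (∀ j, a j ∈ Residues q) ∧ ¬ Good q F ι ω d A B a} ⊆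
      ⋃ c ∈ Fintype.piFinset fun _ : Fin n => Finset.range M,
        {a : Fin n → ℕ | (∀ j, a j ∈ Y c j) ∧ ¬ Good q F ι ω d A B a} := by
    rintro a ⟨ha1, ha2⟩
    rw [Set.mem_iUnion₂]
    refine ⟨fun j => cell L (a j), ?_, fun j => ?_, ha2⟩
    · rw [Fintype.mem_piFinset]
      exact fun j => Finset.mem_range.2 (hcell _ (ha1 j))
    · exact Finset.mem_filter.2 ⟨ha1 j, rfl⟩
  have hfin : (⋃ c ∈ Fintype.piFinset fun _ : Fin n => Finset.range M,
        {a : Fin n → ℕ | (∀ j, a j ∈ Y c j) ∧ ¬ Good q F ι ω d A B a}).Finite := by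
    refine Set.Finite.biUnion (Finset.finite_toSet _) fun c _ => ?_
    refine (Finset.finite_toSet (Fintype.piFinset (Y c))).subset ?_
    rintro a ⟨ha, -⟩
    rw [Finset.mem_coe, Fintype.mem_piFinset]
    exact ha
  have h1 := (Set.ncard_le_ncard hsub hfin).trans (Finset.set_ncard_biUnion_le _ _)
  have h2 : ∀ c ∈ Fintype.piFinset fun _ : Fin n => Finset.range M,
      (({a : Fin n → ℕ | (∀ j, a j ∈ Y c j) ∧ ¬ Good q F ι ω d A B a}.ncard : ℕ) : ℝ) ≤
        C * (n * (2 * L) ^ (n - 1)) := by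
    intro c _
    refine ((h q hqq₁ F hF ι ω (Y c) (fun j => Finset.filter_subset _ _) (fun j => by
      rw [← hL]
      exact hYd c j)).1).trans ?_
    refine mul_le_mul_of_nonneg_left ?_ (Nat.cast_nonneg _)
    calc ∑ j, ∏ i ∈ Finset.univ.erase j, (((Y c i).card : ℕ) : ℝ)
        ≤ ∑ j : Fin n, ∏ i ∈ Finset.univ.erase j, (2 * L) := by
          refine Finset.sum_le_sum fun j _ => Finset.prod_le_prod (fun _ _ => Nat.cast_nonneg _) fun i _ => ?_
          exact card_le hL1 _ (hYd c i)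
      _ = n * (2 * L) ^ (n - 1) := by
          simp only [Finset.prod_const, Finset.card_erase_of_mem (Finset.mem_univ _), Finset.card_univ,
            Fintype.card_fin, Finset.sum_const, nsmul_eq_mul]
  have h3 : (({a : Fin n → ℕ | (∀ j, a j ∈ Residues q) ∧ ¬ Good q F ι ω d A B a}.ncard : ℕ) : ℝ) ≤
      (M : ℝ) ^ n * (C * (n * (2 * L) ^ (n - 1))) := by
    calc (({a : Fin n → ℕ | (∀ j, a j ∈ Residues q) ∧ ¬ Good q F ι ω d A B a}.ncard : ℕ) : ℝ)
        ≤ ((∑ c ∈ Fintype.piFinset fun _ : Fin n => Finset.range M,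
            {a : Fin n → ℕ | (∀ j, a j ∈ Y c j) ∧ ¬ Good q F ι ω d A B a}.ncard : ℕ) : ℝ) := by exact_mod_cast h1
      _ ≤ ∑ c ∈ Fintype.piFinset fun _ : Fin n => Finset.range M, C * (n * (2 * L) ^ (n - 1)) := by
          rw [Nat.cast_sum]
          exact Finset.sum_le_sum h2
      _ = _ := by
          rw [Finset.sum_const, Fintype.card_piFinset_const, Finset.card_range, nsmul_eq_mul]
          push_cast
          rfl
  refine h3.trans ?_
  have h4 : ((q : ℝ) ^ δ) ^ n * L ^ (n - 1) = (q : ℝ) ^ ((n : ℝ) - 1 + δ) := by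
    rw [hL, ← Real.rpow_natCast, ← Real.rpow_natCast, ← Real.rpow_mul hq0.le, ← Real.rpow_mul hq0.le,
      ← Real.rpow_add hq0, Nat.cast_sub hn, Nat.cast_one]
    congr 1
    ring
  have h5 : (M : ℝ) ^ n ≤ (2 * (q : ℝ) ^ δ) ^ n := pow_le_pow_left₀ (Nat.cast_nonneg _) hM2 _
  calc (M : ℝ) ^ n * (C * (n * (2 * L) ^ (n - 1)))
      ≤ (2 * (q : ℝ) ^ δ) ^ n * (C * (n * (2 * L) ^ (n - 1))) := mul_le_mul_of_nonneg_right h5 (by positivity)
    _ = 2 ^ n * (C * (n * 2 ^ (n - 1))) * (((q : ℝ) ^ δ) ^ n * L ^ (n - 1)) := by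
        rw [mul_pow, mul_pow]
        ring
    _ = _ := by rw [h4]

/-- the bad tuples `(q, a_1, …, a_n)` -/
def bad {n g : ℕ} (F : Type) [Field F] [NumberField F] (ι : F →+* ℂ) (ω : Fin g → ℂ) (d : ℕ) (A B : ℝ) :
    Set (Fin (n + 1) → ℕ) :=
  {t | (∀ j : Fin n, t j.succ ∈ Residues (t 0)) ∧ ¬ Good (t 0) F ι ω d A B fun j => t j.succ}

theorem count_box (n m g d : ℕ) (hn : 1 ≤ n) (A δ : ℝ) (hδ : 0 < δ) (hδ1 : δ ≤ 1) :
    ∃ B : ℝ, ∀ (F : Type) [Field F] [NumberField F], Module.finrank ℚ F ≤ m →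
      ∀ (ι : F →+* ℂ) (ω : Fin g → ℂ) (κ : ℕ), 1 ≤ κ → ∃ (C : ℝ) (N₀ : ℕ), ∀ N : ℕ, N₀ ≤ N →
        ({t : Fin (n + 1) → ℕ | (∀ j, N ≤ κ * t j ∧ t j ≤ κ * N) ∧ t ∈ bad F ι ω d A B}.ncard : ℝ) ≤
          C * (N : ℝ) ^ ((n : ℝ) + δ) := by
  classical
  obtain ⟨B, C, q₀, hC, h⟩ := count n m g d hn A δ hδ hδ1
  refine ⟨B, fun F _ _ hF ι ω κ hκ => ⟨(κ + 1) * (C * (κ : ℝ) ^ ((n : ℝ) - 1 + δ)), κ * (q₀ + 1), fun N hN => ?_⟩⟩
  have hn1 : (1 : ℝ) ≤ n := by exact_mod_cast hn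
  have he : 0 ≤ (n : ℝ) - 1 + δ := by linarith
  have hN1 : 1 ≤ N := by nlinarith
  have hNr : (1 : ℝ) ≤ N := by exact_mod_cast hN1
  let S : ℕ → Set (Fin n → ℕ) := fun q => {a : Fin n → ℕ | (∀ j, a j ∈ Residues q) ∧ ¬ Good q F ι ω d A B a}
  have hSfin : ∀ q, (S q).Finite := by
    intro q
    refine (Finset.finite_toSet (Fintype.piFinset fun _ : Fin n => Residues q)).subset ?_
    rintro a ⟨ha, -⟩
    rw [Finset.mem_coe, Fintype.mem_piFinset]
    exact ha
  let Q : Finset ℕ := (Finset.range (κ * N + 1)).filter fun q => q₀ ≤ q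
  have hsub : {t : Fin (n + 1) → ℕ | (∀ j, N ≤ κ * t j ∧ t j ≤ κ * N) ∧ t ∈ bad F ι ω d A B} ⊆
      ⋃ q ∈ Q, (fun a : Fin n → ℕ => (Fin.cons q a : Fin (n + 1) → ℕ)) '' S q := by
    rintro t ⟨ht1, ht2, ht3⟩
    rw [Set.mem_iUnion₂]
    refine ⟨t 0, ?_, fun j => t j.succ, ⟨ht2, ht3⟩, ?_⟩
    · rw [Finset.mem_filter, Finset.mem_range]
      refine ⟨Nat.lt_succ_of_le (ht1 0).2, ?_⟩
      have h1 : κ * (q₀ + 1) ≤ κ * t 0 := hN.trans (ht1 0).1
      have h2 := Nat.le_of_mul_le_mul_left h1 (by omega)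
      omega
    · exact Fin.cons_self_tail t
  have hfin : (⋃ q ∈ Q, (fun a : Fin n → ℕ => (Fin.cons q a : Fin (n + 1) → ℕ)) '' S q).Finite :=
    Set.Finite.biUnion (Finset.finite_toSet _) fun q _ => (hSfin q).image _
  have h1 := (Set.ncard_le_ncard hsub hfin).trans (Finset.set_ncard_biUnion_le _ _)
  have h2 : ∀ q ∈ Q, ((((fun a : Fin n → ℕ => (Fin.cons q a : Fin (n + 1) → ℕ)) '' S q).ncard : ℕ) : ℝ) ≤
      C * ((κ : ℝ) * N) ^ ((n : ℝ) - 1 + δ) := by
    intro q hq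
    rw [Finset.mem_filter, Finset.mem_range] at hq
    have h3 : (((fun a : Fin n → ℕ => (Fin.cons q a : Fin (n + 1) → ℕ)) '' S q).ncard) ≤ (S q).ncard :=
      Set.ncard_image_le (hSfin q)
    have h4 : (q : ℝ) ≤ κ * N := by exact_mod_cast Nat.lt_succ_iff.1 hq.1
    calc ((((fun a : Fin n → ℕ => (Fin.cons q a : Fin (n + 1) → ℕ)) '' S q).ncard : ℕ) : ℝ) ≤ ((S q).ncard : ℕ) := by
          exact_mod_cast h3
      _ ≤ C * (q : ℝ) ^ ((n : ℝ) - 1 + δ) := h q hq.2 F hF ι ω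
      _ ≤ _ := mul_le_mul_of_nonneg_left (Real.rpow_le_rpow (Nat.cast_nonneg _) h4 he) hC
  have hQ : ((Q.card : ℕ) : ℝ) ≤ (κ + 1) * N := by
    have h3 : Q.card ≤ κ * N + 1 := (Finset.card_filter_le _ _).trans (by rw [Finset.card_range])
    have h4 : ((Q.card : ℕ) : ℝ) ≤ κ * N + 1 := by exact_mod_cast h3
    linarith
  have hκN : 0 ≤ C * ((κ : ℝ) * N) ^ ((n : ℝ) - 1 + δ) := mul_nonneg hC (by positivity)
  calc (({t : Fin (n + 1) → ℕ | (∀ j, N ≤ κ * t j ∧ t j ≤ κ * N) ∧ t ∈ bad F ι ω d A B}.ncard : ℕ) : ℝ)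
      ≤ ((∑ q ∈ Q, ((fun a : Fin n → ℕ => (Fin.cons q a : Fin (n + 1) → ℕ)) '' S q).ncard : ℕ) : ℝ) := by
        exact_mod_cast h1
    _ ≤ ∑ q ∈ Q, C * ((κ : ℝ) * N) ^ ((n : ℝ) - 1 + δ) := by
        rw [Nat.cast_sum]
        exact Finset.sum_le_sum h2
    _ = Q.card * (C * ((κ : ℝ) * N) ^ ((n : ℝ) - 1 + δ)) := by rw [Finset.sum_const, nsmul_eq_mul]
    _ ≤ ((κ + 1) * N) * (C * ((κ : ℝ) * N) ^ ((n : ℝ) - 1 + δ)) := mul_le_mul_of_nonneg_right hQ hκN
    _ = (κ + 1) * (C * (κ : ℝ) ^ ((n : ℝ) - 1 + δ)) * (N : ℝ) ^ ((n : ℝ) + δ) := by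
        rw [Real.mul_rpow (Nat.cast_nonneg _) (Nat.cast_nonneg _)]
        have h3 : (N : ℝ) ^ ((n : ℝ) + δ) = N * (N : ℝ) ^ ((n : ℝ) - 1 + δ) := by
          have h4 : (n : ℝ) + δ = 1 + ((n : ℝ) - 1 + δ) := by ring
          rw [h4, Real.rpow_add (by linarith), Real.rpow_one]
        rw [h3]
        ring

lemma good_mono {n g : ℕ} {q : ℕ} (hq : 1 ≤ q) {F : Type} [Field F] [NumberField F] {ι : F →+* ℂ} {ω : Fin g → ℂ} {d : ℕ}
    {A A' B : ℝ} (hA : A ≤ A') {a : Fin n → ℕ} (h : Good q F ι ω d A' B a) : Good q F ι ω d A B a := by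
  have h1 : (q : ℝ) ^ A ≤ (q : ℝ) ^ A' := Real.rpow_le_rpow_of_exponent_le (by exact_mod_cast hq) hA
  refine ⟨fun P hP s => h.1 P ⟨hP.1, fun s => ?_⟩ s, fun Q hQ hd hc => h.2 Q hQ hd fun s φ => (hc s φ).trans h1⟩
  obtain ⟨c, hc1, hc2⟩ := hP.2 s
  exact ⟨c, fun i φ => (hc1 i φ).trans h1, hc2⟩

/-- **Theorem.** Let `n ≥ 1`, `τ > 0` and `ω_0, ω_1, …` complex numbers. There is a set `E` in `ℝ ^ n` of Hausdorff dimension at
most `n / τ`, and of measure zero if `τ > 1`, such that for all `ξ` not in `E` with positive coordinates, all number fields `F`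
in `ℂ` and all `g`, `d`, `A` there is `B` such that for all `C`, for ALL large `q`, ALL tuples `(a_1, …, a_n)` of integers with
`1 ≤ a_j < q / 2`, `gcd(a_j, q) = 1` and `|ξ_j - a_j / q| ≤ C q ^ (-τ)` are good: there is no relation of degree at most `d` in
each variable between `π` and the numbers `Γ(a_j / q)` with coefficients which are integers of `F` with conjugates at most
`q ^ A`, and the polynomials with coefficients which are combinations of `ω_0, …, ω_(g-1)` with such coefficients take at the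
numbers `Γ(a_j / q)` a value which is at least `q ^ (-B)` times each coefficient. -/
theorem result (n : ℕ) (hn : 1 ≤ n) (τ : ℝ) (hτ : 0 < τ) (ω : ℕ → ℂ) :
    ∃ E : Set (Fin n → ℝ), dimH E ≤ ENNReal.ofReal (n / τ) ∧ (1 < τ → volume E = 0) ∧
      ∀ ξ : Fin n → ℝ, (∀ j, 0 < ξ j) → ξ ∉ E → ∀ (F : IntermediateField ℚ ℂ) [NumberField F] (g d : ℕ) (A : ℝ),
        ∃ B : ℝ, ∀ C : ℝ, ∀ᶠ q : ℕ in atTop, ∀ a : Fin n → ℕ, (∀ j, a j ∈ Residues q) →
          (∀ j, |ξ j - a j / q| ≤ C * (q : ℝ) ^ (-τ)) →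
            Good q F (algebraMap F ℂ) (fun i : Fin g => ω i) d A B a := by
  classical
  have hcf := Pool.Agent.N251.LF.countable_fields
  let P : (K : {K : IntermediateField ℚ ℂ // FiniteDimensional ℚ K}) → ℕ → ℕ → ℕ → (Fin n → ℝ) → Prop :=
    fun K g d A ξ => ∀ _ : NumberField K.1, ∃ B : ℝ, ∀ C : ℝ, ∀ᶠ q : ℕ in atTop, ∀ a : Fin n → ℕ,
      (∀ j, a j ∈ Residues q) → (∀ j, |ξ j - a j / q| ≤ C * (q : ℝ) ^ (-τ)) →
        Good q K.1 (algebraMap K.1 ℂ) (fun i : Fin g => ω i) d A B a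
  have key : ∀ (K : {K : IntermediateField ℚ ℂ // FiniteDimensional ℚ K}) (g d A : ℕ),
      dimH {ξ : Fin n → ℝ | (∀ j, 0 < ξ j) ∧ ¬ P K g d A ξ} ≤ ENNReal.ofReal (n / τ) := by
    intro K g d A
    obtain ⟨K, hK⟩ := K
    have hNF : NumberField K := { to_charZero := inferInstance, to_finiteDimensional := hK }
    choose! B hB using fun (δ : ℝ) (hδ : 0 < δ ∧ δ ≤ 1) =>
      count_box n (Module.finrank ℚ K) g d hn (A : ℝ) δ hδ.1 hδ.2
    have h1 := Pool.Agent.D0H63.MR.rat_const (k := n)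
      (fun δ => bad K (algebraMap K ℂ) (fun i : Fin g => ω i) d (A : ℝ) (B δ)) (s := n) (τ := τ) (Nat.cast_nonneg _) hτ
      (fun δ hδ hδ1 κ hκ => hB δ ⟨hδ, hδ1⟩ K le_rfl (algebraMap K ℂ) (fun i : Fin g => ω i) κ hκ)
    refine le_trans (dimH_mono ?_) h1
    rintro ξ ⟨h2, h3⟩
    refine ⟨h2, fun h4 => h3 fun _ => ?_⟩
    obtain ⟨δ, hδ, hδ1, h5⟩ := h4
    refine ⟨B δ, fun C => ?_⟩
    filter_upwards [h5 C] with q hq a ha hnear
    by_contra hbad
    refine hq (Fin.cons q a) (Fin.cons_zero _ _) (fun j => ?_) ⟨fun j => ?_, ?_⟩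
    · rw [Fin.cons_succ]
      exact hnear j
    · rw [Fin.cons_succ, Fin.cons_zero]
      exact ha j
    · simpa only [Fin.cons_succ, Fin.cons_zero] using hbad
  obtain ⟨E, hE⟩ : ∃ E : Set (Fin n → ℝ), E = ⋃ (K : {K : IntermediateField ℚ ℂ // FiniteDimensional ℚ K}) (g : ℕ)
    (d : ℕ) (A : ℕ), {ξ : Fin n → ℝ | (∀ j, 0 < ξ j) ∧ ¬ P K g d A ξ} := ⟨_, rfl⟩
  have hdim : dimH E ≤ ENNReal.ofReal (n / τ) := by
    rw [hE, dimH_iUnion]
    refine iSup_le fun K => ?_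
    rw [dimH_iUnion]
    refine iSup_le fun g => ?_
    rw [dimH_iUnion]
    refine iSup_le fun d => ?_
    rw [dimH_iUnion]
    exact iSup_le fun A => key K g d A
  refine ⟨E, hdim, fun hτ1 => ?_, fun ξ hpos hξ F _ g d A => ?_⟩
  · refine Pool.Agent.N84.MD.null_of_dim hdim (by positivity) ?_
    have hn0 : (0 : ℝ) < n := by exact_mod_cast (by omega : 0 < n)
    rw [div_lt_iff₀ hτ]
    nlinarith
  · obtain ⟨A', hA'⟩ := exists_nat_ge A
    have h1 : P ⟨F, inferInstance⟩ g d A' ξ := by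
      by_contra hcon
      apply hξ
      rw [hE]
      simp only [Set.mem_iUnion]
      exact ⟨⟨F, inferInstance⟩, g, d, A', hpos, hcon⟩
    obtain ⟨B, hB⟩ := h1 inferInstance
    refine ⟨B, fun C => ?_⟩
    filter_upwards [hB C, eventually_ge_atTop 1] with q hq hq1 a ha hnear
    exact good_mono hq1 hA' (hq a ha hnear)

end Pool.Agent.Results.MP_274814_nt.IndependentNumerators
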