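import Pool.Agent.D0H21.LR.Bounds
import Pool.Agent.D0H21.LR.Dens

/-!
# The Lang–Rohrlich inequality for the numerators prime to `q` fails for almost all `q`; the exact value

Let `F_q` be the field generated by `π` and the numbers `Γ(a / q)`, `1 ≤ a ≤ q - 1`, `gcd(a, q) = 1`. The question is whether
the transcendence degree of `F_q` is at least `1 + φ(q) / 2` for all `q > 2`. It is not: for `q = 14` the duplication
formula gives `Γ(1/14) Γ(9/14) Γ(11/14) = 4 π^(3/2)`, and the transcendence degree is at most `3`. We prove: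

Let `R(q)` be the number of the odd characters `χ` modulo `q` such that `χ*(p) ≠ 1` for all prime factors `p` of `q`, where `χ*` is
the primitive character which induces `χ` (so that the Euler factors `1 - χ*(p)` do not vanish). Then, for all `q > 2`,

* `trdeg F_q ≤ 1 + R(q)`;
* `trdeg F_q ≥ trdeg F_q^all - (φ(q) / 2 - R(q))`, where `F_q^all` is generated by `π` and ALL numbers `Γ(a / q)`,
  `1 ≤ a ≤ q - 1`; so `trdeg F_q = 1 + R(q)` if the conjecture is true for all numerators, `trdeg F_q^all = 1 + φ(q) / 2`;
* `R(q) ≤ φ(q) / 2`, with equality if and only if for all prime factors `p` of `q` the number `-1` is a power of `p` modulo the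
  part of `q` prime to `p`; for these `q` (for instance the prime powers) the two versions of the inequality are
  equivalent, and for all other `q` the inequality for `F_q` is false;
* the integers `q` with this property have density zero: the inequality for `F_q` is false for almost all `q`. (It is false if
  `q` has two different prime factors which are `3` modulo `4`: one of them is a square modulo the other one.)

Proof. Modulo the numbers algebraic over a field which contains `π`, the Gamma function is an odd distribution on the rational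
numbers modulo one with values in a torsion-free group (`Pool.Agent.D0H21.LR.gd_odd`: formulas of Euler and Gauss, the
latter by the theorem of Bohr and Mollerup). For a complex valued odd distribution the Fourier coefficient of the values with
exact denominator `q` at `χ` is `∏_(p | q) (1 - χ*(p)⁻¹)` times the one of the values with denominator the conductor at `χ*`.
So the values at the fractions with exact denominator `q` are determined by `R(q)` of them, and, together with
`φ(q) / 2 - R(q)` others, they determine all values at the fractions with denominator `q`.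
-/

set_option autoImplicit false

open Filter Topology

namespace Pool.Agent.Results.MP_274814_nt.PrimitiveValuesDoNotSuffice

open Pool.Agent.D0H21.LR

/-- The field generated over `ℚ` by `π` and the numbers `Γ(a / q)`, `1 ≤ a ≤ q - 1`, `gcd(a, q) = 1`. -/
noncomputable def F (q : ℕ) : IntermediateField ℚ ℂ :=
  IntermediateField.adjoin ℚ
    ({(Real.pi : ℂ)} ∪ {z | ∃ a : ℕ, 1 ≤ a ∧ a ≤ q - 1 ∧ Nat.Coprime a q ∧ z = Complex.Gamma (a / q)})

/-- The field generated over `ℚ` by `π` and all the numbers `Γ(a / q)`, `1 ≤ a ≤ q - 1`. -/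
noncomputable def FAll (q : ℕ) : IntermediateField ℚ ℂ :=
  IntermediateField.adjoin ℚ
    ({(Real.pi : ℂ)} ∪ {z | ∃ a : ℕ, 1 ≤ a ∧ a ≤ q - 1 ∧ z = Complex.Gamma (a / q)})

/-- The number of the odd Dirichlet characters `χ` modulo `q` such that for all prime factors `p` of `q` the primitive character
which induces `χ` has at `p` a value different from `1`. -/
noncomputable def R (q : ℕ) : ℕ :=
  Nat.card {χ : DirichletCharacter ℂ q // χ.Odd ∧
    ∀ p : ℕ, p.Prime → p ∣ q → χ.primitiveCharacter (p : ZMod χ.conductor) ≠ 1}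

/-- For every prime factor `p` of `q`, `-1` is a power of `p` modulo the part of `q` prime to `p`. -/
def MinusOne (q : ℕ) : Prop := ∀ p : ℕ, p.Prime → p ∣ q → ∃ k : ℕ, q / p ^ padicValNat p q ∣ p ^ k + 1

lemma not_14 : ¬ MinusOne 14 := by
  intro h
  obtain ⟨k, hk⟩ := h 2 Nat.prime_two (by norm_num)
  have h1 : padicValNat 2 14 = 1 := by
    have : Fact (Nat.Prime 2) := ⟨Nat.prime_two⟩
    rw [show (14 : ℕ) = 2 * 7 by norm_num, padicValNat.mul (by norm_num) (by norm_num), padicValNat.self (by norm_num),
      padicValNat.eq_zero_of_not_dvd (by norm_num)]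
  rw [h1] at hk
  norm_num at hk
  have h2 : ∀ k : ℕ, 2 ^ k % 7 = 1 ∨ 2 ^ k % 7 = 2 ∨ 2 ^ k % 7 = 4 := by
    intro k
    induction k with
    | zero => left; norm_num
    | succ k ih =>
      rw [pow_succ]
      omega
  have h3 := h2 k
  omega

/-- (1) There is `q > 2` with `trdeg F_q ≤ φ(q) / 2` (for instance `q = 14`). For all `q > 2`: (2) `trdeg F_q ≤ 1 + R(q)`;
(3) `trdeg F_q^all + R(q) ≤ trdeg F_q + φ(q) / 2`, so that `trdeg F_q = 1 + R(q)` if `trdeg F_q^all = 1 + φ(q) / 2`;
(4) `R(q) ≤ φ(q) / 2`; (5) either `R(q) = φ(q) / 2`, for every prime factor `p` of `q` the number `-1` is a power of `p` modulo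
the part of `q` prime to `p`, and `trdeg F_q = trdeg F_q^all`; or `R(q) < φ(q) / 2`, the condition on the primes is not
satisfied, and `trdeg F_q ≤ φ(q) / 2`. (6) The integers `q` with the first alternative have density zero. -/
theorem result :
    (∃ q : ℕ, 2 < q ∧ Algebra.trdeg ℚ (F q) ≤ ((Nat.totient q / 2 : ℕ) : Cardinal)) ∧
    Algebra.trdeg ℚ (F 14) ≤ 3 ∧
    (∀ q : ℕ, 2 < q →
      Algebra.trdeg ℚ (F q) ≤ ((1 + R q : ℕ) : Cardinal) ∧
      Algebra.trdeg ℚ (FAll q) + (R q : Cardinal) ≤ Algebra.trdeg ℚ (F q) + ((Nat.totient q / 2 : ℕ) : Cardinal) ∧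
      (Algebra.trdeg ℚ (FAll q) = ((1 + Nat.totient q / 2 : ℕ) : Cardinal) →
        Algebra.trdeg ℚ (F q) = ((1 + R q : ℕ) : Cardinal)) ∧
      R q ≤ Nat.totient q / 2 ∧
      ((R q = Nat.totient q / 2 ∧ MinusOne q ∧ Algebra.trdeg ℚ (F q) = Algebra.trdeg ℚ (FAll q)) ∨
        (R q < Nat.totient q / 2 ∧ ¬ MinusOne q ∧
          Algebra.trdeg ℚ (F q) ≤ ((Nat.totient q / 2 : ℕ) : Cardinal)))) ∧
    Tendsto (fun X : ℕ => (({q : ℕ | q < X ∧ MinusOne q}.ncard : ℕ) : ℝ) / X) atTop (𝓝 0) := by
  have h1 : ∀ q : ℕ, 2 < q → ¬ MinusOne q → Algebra.trdeg ℚ (F q) ≤ ((Nat.totient q / 2 : ℕ) : Cardinal) :=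
    fun q hq h => trdeg_le hq h
  have h14 := h1 14 (by norm_num) not_14
  refine ⟨⟨14, by norm_num, h14⟩, ?_, ?_, density_zero⟩
  · have h2 : Nat.totient 14 / 2 = 3 := by decide
    rw [h2] at h14
    exact_mod_cast h14
  · intro q hq
    have hR : R q = RR q := rfl
    have h2 : Algebra.trdeg ℚ (F q) ≤ ((1 + R q : ℕ) : Cardinal) := trdeg_le_RR hq
    have h3 : Algebra.trdeg ℚ (FAll q) ≤ Algebra.trdeg ℚ (F q) + (NR q : Cardinal) := trdeg_all_le hq
    have h4 : R q + NR q = Nat.totient q / 2 := by
      have := two_mul_RR hq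
      rw [hR]
      omega
    have h5 := NR_eq_zero_iff hq
    obtain ⟨n, hn⟩ := Cardinal.lt_aleph0.mp (lt_of_le_of_lt h2 Cardinal.natCast_lt_aleph0)
    refine ⟨h2, ?_, ?_, by omega, ?_⟩
    · calc Algebra.trdeg ℚ (FAll q) + (R q : Cardinal) ≤
          Algebra.trdeg ℚ (F q) + (NR q : Cardinal) + (R q : Cardinal) := by gcongr
        _ = Algebra.trdeg ℚ (F q) + ((Nat.totient q / 2 : ℕ) : Cardinal) := by
          rw [← h4, add_assoc]
          congr 1
          push_cast
          rw [add_comm]
    · intro h6
      rw [h6, hn] at h3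
      rw [hn] at h2 ⊢
      have h7 : 1 + Nat.totient q / 2 ≤ n + NR q := by exact_mod_cast h3
      have h8 : n ≤ 1 + R q := by exact_mod_cast h2
      have h9 : n = 1 + R q := by omega
      rw [h9]
    · by_cases h6 : MinusOne q
      · left
        have h7 : NR q = 0 := h5.mpr h6
        exact ⟨by omega, h6, trdeg_all hq h6⟩
      · right
        have h7 : NR q ≠ 0 := fun h8 => h6 (h5.mp h8)
        exact ⟨by omega, h6, h1 q hq h6⟩

end Pool.Agent.Results.MP_274814_nt.PrimitiveValuesDoNotSuffice
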